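import Pool.Agent.SIG.RADefs
import Pool.Agent.SIG.FIN

/-!
Local consistency implies a Siggers behaviour: a finite symmetric relation algebra with a normal
representation whose automorphism group is primitive, and whose network satisfaction problem is
solved by the `(k, l)`-consistency procedure for some `k ≤ l`, admits a Siggers behaviour.
-/

namespace Pool.Agent.Results.MP_9348f6_lc.ConsistencyImpliesSiggers

open Pool.Agent.SIG

universe u v

theorem result {A : Type u} [BooleanAlgebra A] [Finite A] (R : RelAlg A) (hsym : R.Symmetric)
    {B : Type v} (ρ : A → B → B → Prop) (hnormal : IsNormalRep R ρ) (hprim : AutPrimitive ρ)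
    (hconsistency : ∃ k l : ℕ, k ≤ l ∧ SolvedBy ρ k l) : R.HasSiggers :=
  final R hsym ρ hnormal hprim hconsistency

end Pool.Agent.Results.MP_9348f6_lc.ConsistencyImpliesSiggers
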